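import Pool.Agent.Helper97.T5.FarSize

/-!
# T5a, block FAR: the numbers of the two-sided count
-/

set_option autoImplicit false

namespace Pool.Agent.Helper7.T5

open Finset Pool.Agent.Helper27.T4 Pool.Agent.Helper27.T5
open Pool.Agent.Helper5.ET (bb era)

theorem lt_four_W {m l : ℕ} (hm : 0 < m) (hl : bb 0 ≤ l) :
    l < 4 * (rt m (era l) * W m (era l) 1) := by
  have h1 := (era_spec l hl).2
  have h2 : bb (era l + 1) < 2 ^ (la (era l + 1) + 1) := Nat.lt_pow_succ_log_self (by norm_num) _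
  have h3 := la_succ_le (era l)
  have h4 : 2 ^ (la (era l + 1) + 1) ≤ 2 ^ (la (era l) + 2) :=
    Nat.pow_le_pow_right (by norm_num) (by omega)
  have h5 : W m (era l) 0 = rt m (era l) * W m (era l) (0 + 1) := W_succ hm
  have h6 : W m (era l) 0 = 2 ^ la (era l) := by simp [W]
  have h7 : 2 ^ (la (era l) + 2) = 4 * 2 ^ la (era l) := by ring
  simp only [zero_add] at h5
  rw [← h5, h6]
  omega

theorem rt_le_rpow {m l : ℕ} (hm : 0 < m) (hl : bb 0 ≤ l) :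
    (rt m (era l) : ℝ) ≤ (l : ℝ) ^ (1 / (m : ℝ)) := by
  have h1 : rt m (era l) ^ m ≤ l := by
    have h2 := (era_spec l hl).1
    have h3 : 2 ^ la (era l) ≤ bb (era l) := Nat.pow_log_le_self 2 (by
      have h4 := Pool.Agent.Helper27.T4.bb_ge_pow (era l)
      have h5 : 0 < 2 ^ 64 := by norm_num
      omega)
    unfold rt
    rw [← pow_mul]
    have h4 : la (era l) / m * m ≤ la (era l) := Nat.div_mul_le_self _ _
    exact (Nat.pow_le_pow_right (by norm_num) h4).trans (h3.trans h2)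
  have h2 : ((rt m (era l) : ℝ)) ^ m ≤ (l : ℝ) := by exact_mod_cast h1
  calc (rt m (era l) : ℝ) = (((rt m (era l) : ℝ)) ^ m) ^ (1 / (m : ℝ)) := by
        rw [one_div, Real.pow_rpow_inv_natCast (Nat.cast_nonneg _) hm.ne']
    _ ≤ _ := Real.rpow_le_rpow (by positivity) h2 (by positivity)

/-- the numbers of FAR2 -/
theorem far_num {m : ℕ} (hm : 2 ≤ m) : ∃ C : ℝ, 0 < C ∧ ∀ l D : ℕ, bb 0 ≤ l → used m l →
    200 * W m (era l) 1 ≤ D →
    (((10 ^ 8 * l / D + 2 : ℕ) : ℝ)) ^ 64 ≤ C * (l : ℝ) ^ ((64 : ℝ) / m) := by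
  refine ⟨(3 * 10 ^ 6) ^ 64, by positivity, ?_⟩
  intro l D hl _ hD
  have h1 := lt_four_W (m := m) (by omega) hl
  have h2 : 1 ≤ rt m (era l) := Nat.one_le_two_pow
  have hW : 1 ≤ W m (era l) 1 := Nat.one_le_two_pow
  have h3 : 10 ^ 8 * l / D ≤ 2 * 10 ^ 6 * rt m (era l) := by
    refine Nat.div_le_of_le_mul ?_
    have h4 : 2 * 10 ^ 6 * rt m (era l) * (200 * W m (era l) 1) ≤
        2 * 10 ^ 6 * rt m (era l) * D := Nat.mul_le_mul_left _ hD
    nlinarith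
  have h4 : 10 ^ 8 * l / D + 2 ≤ 3 * 10 ^ 6 * rt m (era l) := by omega
  have h5 := rt_le_rpow (m := m) (by omega) hl
  have h6 : ((10 ^ 8 * l / D + 2 : ℕ) : ℝ) ≤ 3 * 10 ^ 6 * (l : ℝ) ^ (1 / (m : ℝ)) := by
    have h7 : ((10 ^ 8 * l / D + 2 : ℕ) : ℝ) ≤ ((3 * 10 ^ 6 * rt m (era l) : ℕ) : ℝ) := by
      exact_mod_cast h4
    push_cast at h7 ⊢
    linarith
  calc (((10 ^ 8 * l / D + 2 : ℕ) : ℝ)) ^ 64 ≤ (3 * 10 ^ 6 * (l : ℝ) ^ (1 / (m : ℝ))) ^ 64 :=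
        pow_le_pow_left₀ (Nat.cast_nonneg _) h6 64
    _ = (3 * 10 ^ 6) ^ 64 * (l : ℝ) ^ ((64 : ℝ) / m) := by
      rw [mul_pow, ← Real.rpow_natCast ((l : ℝ) ^ (1 / (m : ℝ))) 64,
        ← Real.rpow_mul (Nat.cast_nonneg _)]
      congr 2
      push_cast
      ring

end Pool.Agent.Helper7.T5
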